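import Pool.Agent.Helper30.CIR.Goals
import Mathlib

/-! Packet CIR-POW (project CIR of helper30). -/

set_option autoImplicit false

open Set Filter Topology MeasureTheory

open scoped ContDiff

namespace Pool.Agent.Helper86.CIR

open Pool.Agent.Helper56.RZ Pool.Agent.Helper30.CIR

theorem iter_cont {K : ℕ} {M : Set (E K)} {f : E K → E K} (hm : MapsTo f M M)
    (hf : ContinuousOn f M) (k : ℕ) : ContinuousOn (f^[k]) M ∧ MapsTo (f^[k]) M M := by
  induction k with
  | zero => exact ⟨continuousOn_id, mapsTo_id M⟩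
  | succ k ih =>
    rw [Function.iterate_succ]
    exact ⟨ih.1.comp hf hm, ih.2.comp hm⟩

theorem gPOW : StmtPOW := by
  intro N K s M m f A F om η j hj hM hfm hfc hη hD hH
  refine ⟨⟨hD.flow, ⟨hD.eig.1.pow j, ?_⟩, ?_, ?_⟩, ?_⟩
  · intro t x hx
    have h := hD.eig.2 t x hx
    change F (A t x) ^ j = _
    rw [h, mul_pow, ← Complex.exp_nat_mul]
    congr 2
    push_cast
    ring
  · exact mul_pos (by exact_mod_cast (show 0 < j by omega)) hD.pos
  · intro x hx
    change ‖F x ^ j‖ ≤ 1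
    rw [norm_pow]
    exact pow_le_one₀ (norm_nonneg _) (hD.le1 x hx)
  · intro hT
    apply hH
    have hfin : IsFiniteMeasure m := ⟨lt_top_iff_ne_top.2 hM.finite⟩
    have hMm : MeasurableSet M := hM.compact.measurableSet
    have hres : m.restrict M = m := by
      refine Measure.restrict_eq_self_of_ae_mem ?_
      rw [ae_iff]
      exact hM.null
    have key : ∀ k : ℕ, η ^ (2 * j) * (m (f^[k] ⁻¹' {x | x ∈ M ∧ η ≤ ‖F x‖} ∩ M)).toReal ≤
        ∫ x, ‖F (f^[k] x) ^ j‖ ^ 2 ∂m := by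
      intro k
      obtain ⟨hc, hmk⟩ := iter_cont hfm hfc k
      have hFc : ContinuousOn F M := hD.eig.1.continuousOn
      have hg : ContinuousOn (fun x => ‖F (f^[k] x)‖) M := (hFc.comp hc hmk).norm
      have hS : f^[k] ⁻¹' {x | x ∈ M ∧ η ≤ ‖F x‖} ∩ M =
          M ∩ (fun x => ‖F (f^[k] x)‖) ⁻¹' (Ici η) := by
        ext x
        constructor
        · rintro ⟨⟨-, h2⟩, h3⟩
          exact ⟨h3, h2⟩
        · rintro ⟨h1, h2⟩
          exact ⟨⟨hmk h1, h2⟩, h1⟩
      have hSc : IsClosed (M ∩ (fun x => ‖F (f^[k] x)‖) ⁻¹' (Ici η)) :=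
        hg.preimage_isClosed_of_isClosed hM.compact.isClosed isClosed_Ici
      have hG : ContinuousOn (fun x => ‖F (f^[k] x) ^ j‖ ^ 2) M := by
        have : (fun x => ‖F (f^[k] x) ^ j‖ ^ 2) = fun x => (‖F (f^[k] x)‖ ^ j) ^ 2 := by
          funext x
          rw [norm_pow]
        rw [this]
        exact (hg.pow j).pow 2
      have hI : IntegrableOn (fun x => ‖F (f^[k] x) ^ j‖ ^ 2) M m :=
        hG.integrableOn_compact hM.compact
      rw [hS]
      have h1 : ∫ x, ‖F (f^[k] x) ^ j‖ ^ 2 ∂m = ∫ x in M, ‖F (f^[k] x) ^ j‖ ^ 2 ∂m := by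
        rw [hres]
      rw [h1]
      set S := M ∩ (fun x => ‖F (f^[k] x)‖) ⁻¹' (Ici η) with hSdef
      have h2 : ∫ x in S, ‖F (f^[k] x) ^ j‖ ^ 2 ∂m ≤ ∫ x in M, ‖F (f^[k] x) ^ j‖ ^ 2 ∂m := by
        refine setIntegral_mono_set hI ?_ ?_
        · exact ae_of_all _ (fun x => by positivity)
        · exact HasSubset.Subset.eventuallyLE inter_subset_left
      refine le_trans ?_ h2
      have h3 : ∫ x in S, (η ^ (2 * j) : ℝ) ∂m ≤ ∫ x in S, ‖F (f^[k] x) ^ j‖ ^ 2 ∂m := by
        refine setIntegral_mono_on ?_ (hI.mono_set inter_subset_left) hSc.measurableSet ?_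
        · exact integrableOn_const (measure_ne_top m S)
        · intro x hx
          have hx2 : η ≤ ‖F (f^[k] x)‖ := hx.2
          rw [norm_pow, ← pow_mul, mul_comm 2 j]
          exact pow_le_pow_left₀ hη.le hx2 _
      refine le_trans (le_of_eq ?_) h3
      rw [setIntegral_const, smul_eq_mul, mul_comm]
      rfl
    have hpos : 0 < η ^ (2 * j) := by positivity
    have hT2 : Tendsto (fun n : ℕ => (η ^ (2 * j))⁻¹ *
        ((∑ k ∈ Finset.range n, ∫ x, ‖F (f^[k] x) ^ j‖ ^ 2 ∂m) / n)) atTop (𝓝 0) := by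
      have := hT.const_mul (η ^ (2 * j))⁻¹
      simpa using this
    refine squeeze_zero (fun n => ?_) (fun n => ?_) hT2
    · refine div_nonneg (Finset.sum_nonneg fun k _ => ENNReal.toReal_nonneg) (Nat.cast_nonneg _)
    · rw [← mul_div_assoc]
      refine div_le_div_of_nonneg_right ?_ (Nat.cast_nonneg _)
      rw [Finset.mul_sum]
      refine Finset.sum_le_sum fun k _ => ?_
      rw [← div_eq_inv_mul, le_div_iff₀ hpos, mul_comm]
      exact key k

end Pool.Agent.Helper86.CIR
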